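import Mathlib

set_option autoImplicit false

namespace Pool.Agent.Results.MP_9c4245_co.Unbounded

open SimpleGraph

/-- `G` is a `k`-threshold graph. -/
def IsKThreshold {V : Type} (G : SimpleGraph V) (k : ℕ) : Prop :=
  ∃ θ : Fin k → ℝ, StrictMono θ ∧ ∃ r : V → ℝ,
    ∀ v w, v ≠ w → (G.Adj v w ↔ Odd {i | θ i ≤ r v + r w}.ncard)

/-- The edge set of `H` is the union of the edge sets of `k` threshold graphs on its vertices. -/
def ThresholdCover {V : Type} (H : SimpleGraph V) (k : ℕ) : Prop :=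
  ∃ T : Fin k → SimpleGraph V, (∀ i, IsKThreshold (T i) 1) ∧ H = ⨆ i, T i

lemma one_iff (θ : Fin 1 → ℝ) (x : ℝ) : Odd {i | θ i ≤ x}.ncard ↔ θ 0 ≤ x := by
  by_cases h : θ 0 ≤ x
  · have : {i | θ i ≤ x} = {0} := by
      ext i; rw [Subsingleton.elim i 0]; simp [h]
    rw [this]; simp [h]
  · have : {i | θ i ≤ x} = ∅ := by
      ext i; rw [Subsingleton.elim i 0]; simp [h]
    rw [this]; simp [h]

def thr {V : Type} (r : V → ℝ) : SimpleGraph V where
  Adj v w := v ≠ w ∧ 1 ≤ r v + r w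
  symm := ⟨fun _ _ h => ⟨h.1.symm, by rw [add_comm]; exact h.2⟩⟩
  loopless := ⟨fun _ h => h.1 rfl⟩

lemma thr_threshold {V : Type} (r : V → ℝ) : IsKThreshold (thr r) 1 :=
  ⟨fun _ => 1, Subsingleton.strictMono _, r, fun v w h => by
    rw [one_iff]; exact ⟨fun x => x.2, fun x => ⟨h, x⟩⟩⟩

abbrev W (m : ℕ) := (Fin m × Fin m) ⊕ (Fin m ⊕ Fin m)

def r1 (m : ℕ) : W m → ℝ
  | Sum.inl x => -(x.1.val : ℝ)
  | Sum.inr (Sum.inl i) => i.val
  | Sum.inr (Sum.inr _) => 0

def r2 (m : ℕ) : W m → ℝ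
  | Sum.inl x => -(x.2.val : ℝ)
  | Sum.inr (Sum.inl _) => 0
  | Sum.inr (Sum.inr j) => j.val

def H (m : ℕ) : SimpleGraph (W m) := thr (r1 m) ⊔ thr (r2 m)

lemma H_left (m : ℕ) (x : Fin m × Fin m) (i : Fin m) :
    (H m).Adj (Sum.inl x) (Sum.inr (Sum.inl i)) ↔ x.1 < i := by
  have h0 : (0 : ℝ) ≤ x.2.val := Nat.cast_nonneg _
  have : x.1 < i ↔ (x.1.val : ℝ) + 1 ≤ i.val := by
    rw [Fin.lt_def]; exact_mod_cast Nat.lt_iff_add_one_le
  rw [this]
  simp only [H, sup_adj, thr, r1, r2]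
  constructor
  · rintro (h | h)
    · linarith [h.2]
    · linarith [h.2]
  · intro h
    exact Or.inl ⟨by simp, by linarith⟩

lemma H_right (m : ℕ) (x : Fin m × Fin m) (j : Fin m) :
    (H m).Adj (Sum.inl x) (Sum.inr (Sum.inr j)) ↔ x.2 < j := by
  have h0 : (0 : ℝ) ≤ x.1.val := Nat.cast_nonneg _
  have : x.2 < j ↔ (x.2.val : ℝ) + 1 ≤ j.val := by
    rw [Fin.lt_def]; exact_mod_cast Nat.lt_iff_add_one_le
  rw [this]
  simp only [H, sup_adj, thr, r1, r2]
  constructor
  · rintro (h | h)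
    · linarith [h.2]
    · linarith [h.2]
  · intro h
    exact Or.inr ⟨by simp, by linarith⟩

lemma not_thr (m k : ℕ) (hk : k * (m + m) + 1 < m * m) : ¬ IsKThreshold (H m)ᶜ k := by
  classical
  rintro ⟨θ, -, r, hr⟩
  let A : Fin m × Fin m → Finset (Fin k × (Fin m ⊕ Fin m)) := fun x =>
    Finset.univ.filter fun p => θ p.1 ≤ r (Sum.inl x) + r (Sum.inr p.2)
  have mono : ∀ x x', r (Sum.inl x) ≤ r (Sum.inl x') → A x ⊆ A x' := by
    intro x x' h p hp
    simp only [A, Finset.mem_filter, Finset.mem_univ, true_and] at hp ⊢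
    linarith
  have same : ∀ x x', A x = A x' → x = x' := by
    intro x x' h
    have nb : ∀ y, (H m).Adj (Sum.inl x) (Sum.inr y) ↔ (H m).Adj (Sum.inl x') (Sum.inr y) := by
      intro y
      have e : {i | θ i ≤ r (Sum.inl x) + r (Sum.inr y)} =
          {i | θ i ≤ r (Sum.inl x') + r (Sum.inr y)} := by
        ext i
        have := Finset.ext_iff.1 h (i, y)
        simpa [A] using this
      have h1 := hr (Sum.inl x) (Sum.inr y) (by simp)
      have h2 := hr (Sum.inl x') (Sum.inr y) (by simp)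
      rw [e, ← h2] at h1
      simp only [compl_adj, ne_eq, reduceCtorEq, not_false_eq_true, true_and] at h1
      exact not_iff_not.1 h1
    have a1 := nb (Sum.inl x.1)
    have a2 := nb (Sum.inl x'.1)
    have a3 := nb (Sum.inr x.2)
    have a4 := nb (Sum.inr x'.2)
    rw [H_left, H_left] at a1 a2
    rw [H_right, H_right] at a3 a4
    simp only [lt_self_iff_false, false_iff, iff_false, not_lt] at a1 a2 a3 a4
    exact Prod.ext (le_antisymm a1 a2) (le_antisymm a3 a4)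
  have bd : ∀ x, (A x).card < k * (m + m) + 1 := by
    intro x
    have := Finset.card_le_univ (A x)
    simp only [Fintype.card_prod, Fintype.card_fin, Fintype.card_sum] at this
    omega
  obtain ⟨x, x', hne, he⟩ := Fintype.exists_ne_map_eq_of_card_lt
    (fun x => (⟨(A x).card, bd x⟩ : Fin (k * (m + m) + 1))) (by simpa using hk)
  have hc : (A x).card = (A x').card := congrArg Fin.val he
  apply hne
  rcases le_total (r (Sum.inl x)) (r (Sum.inl x')) with h | h
  · exact same _ _ (Finset.eq_of_subset_of_card_le (mono _ _ h) hc.ge)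
  · exact (same _ _ (Finset.eq_of_subset_of_card_le (mono _ _ h) hc.le)).symm

lemma two_le (m : ℕ) (k : ℕ) (h : ThresholdCover (H (m + 2)) k) : 2 ≤ k := by
  obtain ⟨T, hT, hH⟩ := h
  by_contra hk
  have e1 := (H_left (m + 2) (0, 1) 1).2 (by simp)
  have e2 := (H_right (m + 2) (1, 0) 1).2 (by simp)
  have n1 := (H_right (m + 2) (0, 1) 1).not.2 (by simp)
  have n2 := (H_left (m + 2) (1, 0) 1).not.2 (by simp)
  rw [hH, iSup_adj] at e1 e2 n1 n2
  obtain ⟨i, e1⟩ := e1
  obtain ⟨j, e2⟩ := e2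
  have : j = i := Fin.ext (by have := i.isLt; have := j.isLt; omega)
  subst this
  obtain ⟨θ, -, r, hr⟩ := hT j
  have f1 := (hr _ _ (by simp)).1 e1
  have f2 := (hr _ _ (by simp)).1 e2
  have g1 := (hr _ _ (by simp)).not.1 fun x => n1 ⟨j, x⟩
  have g2 := (hr _ _ (by simp)).not.1 fun x => n2 ⟨j, x⟩
  rw [one_iff] at f1 f2 g1 g2
  push Not at g1 g2
  linarith

theorem result : ∀ C : ℕ, ∃ (V : Type) (_ : Fintype V) (G : SimpleGraph V),
    IsLeast {k | ThresholdCover Gᶜ k} 2 ∧ ∀ k ≤ C, ¬ IsKThreshold G k := by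
  intro C
  refine ⟨W (2 * C + 2), inferInstance, (H (2 * C + 2))ᶜ, ⟨?_, ?_⟩, fun k hk => ?_⟩
  · rw [compl_compl]
    refine ⟨![thr (r1 _), thr (r2 _)], fun i => ?_, ?_⟩
    · fin_cases i <;> exact thr_threshold _
    · ext u v
      simp [H, iSup_adj, Fin.exists_fin_two]
  · intro k hk
    rw [compl_compl] at hk
    exact two_le _ k hk
  · apply not_thr
    nlinarith

end Pool.Agent.Results.MP_9c4245_co.Unbounded
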